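import Pool.Agent.H58.PF.Targets
import Pool.Agent.H64.AG.Tight

/-! # PER: perfect preimages -/

set_option autoImplicit false

open Topology Cardinal

namespace Pool.Agent.H92.PF

open Pool.Agent.H58.PF Pool.Agent.H20.SL Pool.Agent.H64.AK Pool.Agent.H64.AG Pool.Agent.H60.CP

theorem per_cases (t : XT Om) : t = OnePoint.infty ∨ ∃ α : Om, t = inc α := by
  induction t using OnePoint.rec with
  | infty => exact Or.inl rfl
  | coe α => exact Or.inr ⟨α, rfl⟩

/-- the image of a lower set -/
def inD (a : Om) : Set (XT Om) := (fun x : TT Om => (x : XT Om)) '' dn a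

theorem mem_inD {a b : Om} : inc b ∈ inD a ↔ b ≤ a := by
  constructor
  · rintro ⟨x, hx, hxb⟩
    have h1 : x = b := OnePoint.coe_injective hxb
    exact h1 ▸ hx
  · intro h
    exact ⟨b, h, rfl⟩

theorem inf_notMem_inD (a : Om) : (OnePoint.infty : XT Om) ∉ inD a := by
  rintro ⟨x, -, hx⟩
  exact OnePoint.coe_ne_infty x hx

theorem inD_open (a : Om) : IsOpen (inD a) := OnePoint.isOpen_image_coe.2 (dn_open a)

theorem inD_closed (a : Om) : IsClosed (inD a) :=
  OnePoint.isClosed_image_coe.2 ⟨dn_closed om_tree om_haus a, dn_compact om_tree a⟩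

theorem per : T_PER := by
  intro F _ _ _ g hg hgs
  have h1 : ∀ w : {z // g z ≠ OnePoint.infty}, ∃ a : Om, g w.1 = inc a := by
    intro w
    rcases per_cases (g w.1) with h | h
    · exact absurd h w.2
    · exact h
  choose r hr using h1
  have hset : ∀ a : Om, {w : {z // g z ≠ OnePoint.infty} | r w ≤ a} =
      (fun w : {z // g z ≠ OnePoint.infty} => g w.1) ⁻¹' inD a := by
    intro a
    ext w
    show r w ≤ a ↔ g w.1 ∈ inD a
    rw [hr w, mem_inD]
  have hc : Continuous fun w : {z // g z ≠ OnePoint.infty} => g w.1 :=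
    hg.comp continuous_subtype_val
  refine ⟨r, ⟨fun a => ?_, fun a => ?_, fun a => ?_, fun a => ?_⟩, hr⟩
  · rw [hset]
    exact (inD_open a).preimage hc
  · rw [hset]
    exact (inD_closed a).preimage hc
  · rw [Subtype.isCompact_iff]
    have e : (Subtype.val '' {w : {z // g z ≠ OnePoint.infty} | r w ≤ a}) = g ⁻¹' inD a := by
      rw [hset]
      ext z
      constructor
      · rintro ⟨w, hw, rfl⟩
        exact hw
      · intro hz
        have hz' : g z ∈ inD a := hz
        exact ⟨⟨z, fun h => inf_notMem_inD a (h ▸ hz')⟩, hz', rfl⟩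
    rw [e]
    exact ((inD_closed a).preimage hg).isCompact
  · obtain ⟨b, hb⟩ := bdd (W := Om) (Set.countable_singleton a)
    obtain ⟨z, hz⟩ := hgs (inc b)
    have hz2 : g z ≠ OnePoint.infty := by
      rw [hz]
      exact OnePoint.coe_ne_infty (X := TT Om) b
    refine ⟨⟨z, hz2⟩, ?_⟩
    have h2 := hr ⟨z, hz2⟩
    have h3 : r ⟨z, hz2⟩ = b := inc_injective (h2.symm.trans hz)
    rw [h3]
    exact hb a rfl

end Pool.Agent.H92.PF
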